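import Pool.Agent.Helper72.GP.Goals

/-!
# Project GP (MP_c9dfb5_co), packet SAMP: alteration

We use the method of conditional expectations: the function
`p ↦ ∑_{x ∈ V} p x - ∑_{τ ∈ T} p τ₁ * p τ₂ * p τ₃` is affine in every coordinate, so its value at the constant
function `1/q` is at most its value at some function with values in `{0, 1}`.
-/

set_option autoImplicit false

namespace Pool.Agent.Helper8.GP

open Finset Polynomial
open Pool.Agent.Helper72.GP
open scoped Polynomial.Bivariate Classical

noncomputable section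

/-- the expected number of selected points minus that of selected triples -/
def Fx {α : Type} (V : Finset α) (T : Finset (α × α × α)) (p : α → ℝ) : ℝ :=
  ∑ x ∈ V, p x - ∑ τ ∈ T, p τ.1 * p τ.2.1 * p τ.2.2

theorem fx_affine {α : Type} (V : Finset α) (T : Finset (α × α × α))
    (hT : ∀ τ ∈ T, τ.1 ≠ τ.2.1 ∧ τ.2.1 ≠ τ.2.2 ∧ τ.1 ≠ τ.2.2) (p : α → ℝ) (x : α) :
    Fx V T p = (1 - p x) * Fx V T (Function.update p x 0) +
      p x * Fx V T (Function.update p x 1) := by
  have h1 : ∑ y ∈ V, p y = (1 - p x) * ∑ y ∈ V, Function.update p x 0 y +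
      p x * ∑ y ∈ V, Function.update p x 1 y := by
    rw [Finset.mul_sum, Finset.mul_sum, ← Finset.sum_add_distrib]
    apply Finset.sum_congr rfl
    intro y _
    by_cases hy : y = x
    · subst hy
      rw [Function.update_self, Function.update_self]
      ring
    · rw [Function.update_of_ne hy, Function.update_of_ne hy]
      ring
  have h2 : ∑ τ ∈ T, p τ.1 * p τ.2.1 * p τ.2.2 =
      (1 - p x) * ∑ τ ∈ T, Function.update p x 0 τ.1 * Function.update p x 0 τ.2.1 *
        Function.update p x 0 τ.2.2 +
      p x * ∑ τ ∈ T, Function.update p x 1 τ.1 * Function.update p x 1 τ.2.1 *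
        Function.update p x 1 τ.2.2 := by
    rw [Finset.mul_sum, Finset.mul_sum, ← Finset.sum_add_distrib]
    apply Finset.sum_congr rfl
    rintro ⟨a, b, c⟩ hτ
    obtain ⟨hab, hbc, hac⟩ := hT _ hτ
    simp only at hab hbc hac ⊢
    by_cases ha : a = x
    · subst ha
      rw [Function.update_self, Function.update_self, Function.update_of_ne (Ne.symm hab),
        Function.update_of_ne (Ne.symm hab), Function.update_of_ne (Ne.symm hac),
        Function.update_of_ne (Ne.symm hac)]
      ring
    · by_cases hb : b = x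
      · subst hb
        rw [Function.update_self, Function.update_self, Function.update_of_ne hab,
          Function.update_of_ne hab, Function.update_of_ne (Ne.symm hbc),
          Function.update_of_ne (Ne.symm hbc)]
        ring
      · by_cases hc : c = x
        · subst hc
          rw [Function.update_self, Function.update_self, Function.update_of_ne hac,
            Function.update_of_ne hac, Function.update_of_ne hbc,
            Function.update_of_ne hbc]
          ring
        · rw [Function.update_of_ne ha, Function.update_of_ne ha, Function.update_of_ne hb,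
            Function.update_of_ne hb, Function.update_of_ne hc, Function.update_of_ne hc]
          ring
  unfold Fx
  rw [h1, h2]
  ring

theorem fx_round {α : Type} (V : Finset α) (T : Finset (α × α × α))
    (hT : ∀ τ ∈ T, τ.1 ≠ τ.2.1 ∧ τ.2.1 ≠ τ.2.2 ∧ τ.1 ≠ τ.2.2) (U : Finset α) :
    ∀ p : α → ℝ, (∀ x, 0 ≤ p x ∧ p x ≤ 1) →
      ∃ p' : α → ℝ, (∀ x ∈ U, p' x = 0 ∨ p' x = 1) ∧ (∀ x, 0 ≤ p' x ∧ p' x ≤ 1) ∧
        (∀ x, x ∉ U → p' x = p x) ∧ Fx V T p ≤ Fx V T p' := by
  induction U using Finset.induction_on with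
  | empty =>
    intro p hp
    exact ⟨p, fun x hx => absurd hx (Finset.notMem_empty x), hp, fun x _ => rfl, le_refl _⟩
  | insert x U hx ih =>
    intro p hp
    have h1 : ∃ t : ℝ, (t = 0 ∨ t = 1) ∧ Fx V T p ≤ Fx V T (Function.update p x t) := by
      have h2 := fx_affine V T hT p x
      have h3 := hp x
      by_contra hcon
      push Not at hcon
      have h4 := hcon 0 (Or.inl rfl)
      have h5 := hcon 1 (Or.inr rfl)
      rcases eq_or_lt_of_le h3.1 with h6 | h6
      · rw [← h6] at h2
        linarith
      · nlinarith [mul_lt_mul_of_pos_left h5 h6, mul_le_mul_of_nonneg_left h4.le (by linarith [h3.2] : (0:ℝ) ≤ 1 - p x)]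
    obtain ⟨t, ht, hle⟩ := h1
    have hq : ∀ y, 0 ≤ Function.update p x t y ∧ Function.update p x t y ≤ 1 := by
      intro y
      by_cases hy : y = x
      · subst hy
        rw [Function.update_self]
        rcases ht with ht | ht <;> subst ht <;> norm_num
      · rw [Function.update_of_ne hy]
        exact hp y
    obtain ⟨p', h1, h2, h3, h4⟩ := ih (Function.update p x t) hq
    refine ⟨p', fun y hy => ?_, h2, fun y hy => ?_, le_trans hle h4⟩
    · rcases Finset.mem_insert.mp hy with rfl | hy
      · rw [h3 y hx, Function.update_self]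
        exact ht
      · exact h1 y hy
    · have h5 : y ∉ U := fun h => hy (Finset.mem_insert_of_mem h)
      have h6 : y ≠ x := fun h => hy (h ▸ Finset.mem_insert_self x U)
      rw [h3 y h5, Function.update_of_ne h6]

theorem samp : SAMP := by
  intro α V T q hq hT
  have hq0 : (0:ℝ) < q := by
    have : 0 < q := hq
    exact_mod_cast this
  have hq1 : (1:ℝ) ≤ q := by exact_mod_cast hq
  obtain ⟨p, h1, h2, _, h4⟩ := fx_round V T (fun τ hτ => (hT τ hτ).2.2.2) V (fun _ => 1 / (q:ℝ))
    (fun x => ⟨by positivity, by rw [div_le_one hq0]; exact hq1⟩)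
  have h5 : Fx V T (fun _ => 1 / (q:ℝ)) = (V.card : ℝ) / q - (T.card : ℝ) / q ^ 3 := by
    unfold Fx
    rw [Finset.sum_const, Finset.sum_const, nsmul_eq_mul, nsmul_eq_mul]
    field_simp
  rw [h5] at h4
  -- the selected points
  let S₀ : Finset α := V.filter (fun x => p x = 1)
  let B : Finset (α × α × α) := T.filter (fun τ => p τ.1 = 1 ∧ p τ.2.1 = 1 ∧ p τ.2.2 = 1)
  have h6 : ∑ x ∈ V, p x = (S₀.card : ℝ) := by
    rw [Finset.card_filter, Nat.cast_sum]
    apply Finset.sum_congr rfl
    intro x hx
    by_cases h : p x = 1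
    · rw [if_pos h, h, Nat.cast_one]
    · rw [if_neg h, Nat.cast_zero]
      exact (h1 x hx).resolve_right h
  have h7 : ∑ τ ∈ T, p τ.1 * p τ.2.1 * p τ.2.2 = (B.card : ℝ) := by
    rw [Finset.card_filter, Nat.cast_sum]
    apply Finset.sum_congr rfl
    intro τ hτ
    obtain ⟨ha, hb, hc, _⟩ := hT τ hτ
    by_cases h : p τ.1 = 1 ∧ p τ.2.1 = 1 ∧ p τ.2.2 = 1
    · rw [if_pos h, h.1, h.2.1, h.2.2]
      norm_num
    · rw [if_neg h, Nat.cast_zero]
      rcases h1 _ ha with h8 | h8
      · rw [h8]; ring
      · rcases h1 _ hb with h9 | h9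
        · rw [h9]; ring
        · rcases h1 _ hc with h10 | h10
          · rw [h10]; ring
          · exact absurd ⟨h8, h9, h10⟩ h
  have h8 : Fx V T p = (S₀.card : ℝ) - (B.card : ℝ) := by
    unfold Fx
    rw [h6, h7]
  rw [h8] at h4
  refine ⟨S₀ \ B.image (fun τ => τ.1), ?_, ?_, ?_⟩
  · exact Finset.sdiff_subset.trans (Finset.filter_subset _ _)
  · rintro τ hτ ⟨ha, hb, hc⟩
    rw [Finset.mem_sdiff] at ha hb hc
    have ha' := (Finset.mem_filter.mp ha.1).2
    have hb' := (Finset.mem_filter.mp hb.1).2
    have hc' := (Finset.mem_filter.mp hc.1).2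
    exact ha.2 (Finset.mem_image.mpr ⟨τ, Finset.mem_filter.mpr ⟨hτ, ha', hb', hc'⟩, rfl⟩)
  · have h9 : S₀.card ≤ (S₀ \ B.image (fun τ => τ.1)).card + B.card := by
      have h10 := Finset.le_card_sdiff (B.image (fun τ => τ.1)) S₀
      have h11 : (B.image (fun τ => τ.1)).card ≤ B.card := Finset.card_image_le
      omega
    have h10 : (S₀.card : ℝ) ≤ ((S₀ \ B.image (fun τ => τ.1)).card : ℝ) + (B.card : ℝ) := by
      exact_mod_cast h9
    linarith

end

end Pool.Agent.Helper8.GP
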